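import Mathlib
import Pool.Agent.R528.RM.Sp5

set_option autoImplicit false
set_option linter.unusedSectionVars false
set_option linter.unusedVariables false

/-! # The number of windows with at most `r` members along a sparse sequence

Adaptation of the upper bound of `Pool.Agent.R528.RM.emp_upper` (empty windows) to windows with at
most `r` members. -/

open MeasureTheory Filter Set
open scoped ENNReal Topology

namespace Pool.Agent.H636.FW

open Pool.Agent.R528.RM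

variable {Ω : Type} {m0 : MeasurableSpace Ω} {μ : Measure Ω} [IsProbabilityMeasure μ]
  {ℱ : Filtration ℕ m0} {A : ℕ → Set Ω}

/-- the number of windows up to `J` with at most `r` members -/
noncomputable def few (A : ℕ → Set Ω) (T h : ℕ → ℕ) (r J : ℕ) (ω : Ω) : ℕ :=
  ((Finset.range (J + 1)).filter (fun j => cnt A (T j) (h j) ω ≤ r)).card

lemma emp_le_few (A : ℕ → Set Ω) (T h : ℕ → ℕ) (r J : ℕ) (ω : Ω) :
    emp A T h J ω ≤ few A T h r J ω := by
  unfold emp few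
  apply Finset.card_le_card
  intro j hj
  rw [Finset.mem_filter] at hj ⊢
  exact ⟨hj.1, by omega⟩

lemma cnt_le_meas (hA : ∀ n, MeasurableSet[ℱ n] (A n)) (t j r : ℕ) :
    MeasurableSet[ℱ (t + j)] {ω | cnt A t j ω ≤ r} := by
  have h1 : {ω | cnt A t j ω ≤ r} = ⋃ k ∈ Finset.range (r + 1), {ω | cnt A t j ω = k} := by
    ext ω
    simp only [mem_ofPred_eq, mem_iUnion, Finset.mem_range]
    constructor
    · intro h
      exact ⟨cnt A t j ω, by omega, rfl⟩
    · rintro ⟨k, hk, h⟩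
      omega
  rw [h1]
  exact Finset.measurableSet_biUnion (m := ℱ (t + j)) _ (fun k _ => cnt_meas hA t j k)

/-- upper bound for the number of windows with at most `r` members -/
theorem few_upper (hA : ∀ n, MeasurableSet[ℱ n] (A n)) {W : ℕ} (hW : 0 < W)
    (hd : ∀ᵐ ω ∂μ, ∀ ε : ℝ, 0 < ε → ∀ᶠ n : ℕ in atTop, |dens μ ℱ A n ω - rhoW W (n + 1)| ≤ ε * rhoW W (n + 1))
    {T h : ℕ → ℕ} {β γ : ℝ} (hs : Spar T h β) (hβ : 0 < β) (hγ : 1 - β < γ) (hγ0 : 0 < γ) (r : ℕ) :
    ∀ᵐ ω ∂μ, ∀ᶠ J : ℕ in atTop, (few A T h r J ω : ℝ) ≤ (J : ℝ) ^ γ := by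
  set γ₁ : ℝ := (max (1 - β) 0 + γ) / 2 with hγ₁
  have hmaxγ : max (1 - β) 0 < γ := max_lt hγ hγ0
  have hγ₁a : 1 - β < γ₁ := lt_of_le_of_lt (le_max_left _ _) (by rw [hγ₁]; linarith)
  have hγ₁0 : 0 < γ₁ := lt_of_le_of_lt (le_max_right (1 - β) 0) (by rw [hγ₁]; linarith)
  have hγ₁b : γ₁ < γ := by rw [hγ₁]; linarith
  set η : ℝ := γ₁ - (1 - β) with hη
  have hη0 : 0 < η := by linarith
  -- `δ`
  obtain ⟨δ, hδ0, hδ1, hδ⟩ : ∃ δ : ℝ, 0 < δ ∧ δ ≤ 1 / 2 ∧ β * (1 - δ - δ * (1 + δ)) > β - η / 4 := by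
    refine ⟨min (1 / 2) (η / (16 * β)), lt_min (by norm_num) (by positivity), min_le_left _ _, ?_⟩
    set δ := min (1 / 2) (η / (16 * β)) with hδ
    have h0 : 0 < δ := lt_min (by norm_num) (by positivity)
    have h1 : δ ≤ 1 / 2 := min_le_left _ _
    have h2 : δ ≤ η / (16 * β) := min_le_right _ _
    rw [le_div_iff₀ (by positivity)] at h2
    have h3 : δ * δ ≤ δ * (1 / 2) := mul_le_mul_of_nonneg_left h1 h0.le
    nlinarith
  have hl1 : ∀ n, Pool.Agent.R528.RM.lp W δ n ≤ 1 := by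
    intro n
    have h1 := rhoW_le W n
    have h2 := rhoW_nonneg W n
    unfold Pool.Agent.R528.RM.lp
    nlinarith only [h1, h2, hδ0, hδ1]
  have hu0 : ∀ n, 0 ≤ up W δ n := fun n => le_min zero_le_one (mul_nonneg (by linarith) (rhoW_nonneg W n))
  set E : ℕ → Set Ω := fun j => {ω | cnt A (T j) (h j) ω ≤ r} \ WV (VB μ ℱ A (Pool.Agent.R528.RM.lp W δ) (up W δ)) (T j) (h j) with hE
  have hEm : ∀ j, MeasurableSet (E j) := fun j => (ℱ.le _ _ (cnt_le_meas hA _ _ _)).diff (ℱ.le _ _ (WV_meas (fun n => VB_meas _ _ n) _ _))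
  have hR := Rw_lim hW hs
  have hprob : ∀ᶠ j : ℕ in atTop, μ.real (E j) ≤ (j : ℝ) ^ (-(β - η / 2)) := by
    have h1 := (hR.const_mul (1 - δ - δ * (1 + δ))).eventually (eventually_gt_nhds (show β - η / 4 < (1 - δ - δ * (1 + δ)) * β by linarith))
    filter_upwards [h1, tendsto_log.eventually_gt_atTop 0, eventually_gt_atTop 0,
      tendsto_log.eventually_ge_atTop (-(4 * (r * Real.log δ)) / η)] with j g1 g2 g3 g4
    have hj : (0 : ℝ) < j := by exact_mod_cast g3
    have h2 := cnt_tail_prof (μ := μ) (ℱ := ℱ) hA hl1 hu0 (κ := r) hδ0 {k : ℕ | k ≤ r} (by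
      intro k hk
      have hk' : k ≤ r := hk
      rw [Real.rpow_natCast]
      exact pow_le_pow_of_le_one hδ0.le (by linarith) hk') (T j) (h j)
    refine (le_trans (measureReal_mono (fun ω hω => hω) (measure_ne_top _ _)) h2).trans ?_
    rw [Real.rpow_def_of_pos hj, ← Real.exp_add, Real.exp_le_exp]
    have h4 : ∑ i ∈ Finset.range (h j), (δ * up W δ (T j + 1 + i) - Pool.Agent.R528.RM.lp W δ (T j + 1 + i)) ≤ -((1 - δ - δ * (1 + δ)) * Rw W T h j) := by
      unfold Rw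
      rw [Finset.mul_sum, ← Finset.sum_neg_distrib]
      apply Finset.sum_le_sum
      intro i _
      have g1 : up W δ (T j + 1 + i) ≤ (1 + δ) * rhoW W (T j + 1 + i) := min_le_right _ _
      have g2 := mul_le_mul_of_nonneg_left g1 hδ0.le
      unfold Pool.Agent.R528.RM.lp
      linarith
    rw [← mul_div_assoc, lt_div_iff₀ g2] at g1
    rw [div_le_iff₀ hη0] at g4
    nlinarith
  -- the weighted series
  set w : ℕ → ℝ≥0∞ := fun j => ENNReal.ofReal ((j : ℝ) ^ (-γ₁)) with hw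
  have hfin : ∑' j, w j * μ (E j) ≠ ∞ := by
    obtain ⟨N, hN⟩ := eventually_atTop.1 (hprob.and (eventually_gt_atTop 0))
    have hsum : Summable (fun j : ℕ => (j : ℝ) ^ (-(1 + η / 2))) := summable_pow_nat (by linarith)
    have h1 : ∀ j, N ≤ j → w j * μ (E j) ≤ ENNReal.ofReal ((j : ℝ) ^ (-(1 + η / 2))) := by
      intro j hj
      obtain ⟨g1, g2⟩ := hN j hj
      have hj : (0 : ℝ) < j := by exact_mod_cast g2
      rw [← ofReal_measureReal (measure_ne_top μ (E j)), hw, ← ENNReal.ofReal_mul (Real.rpow_nonneg hj.le _)]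
      apply ENNReal.ofReal_le_ofReal
      calc (j : ℝ) ^ (-γ₁) * μ.real (E j) ≤ (j : ℝ) ^ (-γ₁) * (j : ℝ) ^ (-(β - η / 2)) :=
            mul_le_mul_of_nonneg_left g1 (Real.rpow_nonneg hj.le _)
        _ = _ := by
            rw [← Real.rpow_add hj]
            congr 1
            rw [hη]
            ring
    have h2 : ∑' j, w (j + N) * μ (E (j + N)) ≠ ∞ := by
      have hs' : Summable (fun j : ℕ => ((j + N : ℕ) : ℝ) ^ (-(1 + η / 2))) := (summable_nat_add_iff N).2 hsum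
      have h3 : ∑' j : ℕ, ENNReal.ofReal (((j + N : ℕ) : ℝ) ^ (-(1 + η / 2))) ≠ ∞ := by
        rw [← ENNReal.ofReal_tsum_of_nonneg (fun j => Real.rpow_nonneg (Nat.cast_nonneg _) _) hs']
        exact ENNReal.ofReal_ne_top
      exact ne_top_of_le_ne_top h3 (ENNReal.tsum_le_tsum fun j => h1 (j + N) (by omega))
    have h3 : ∑' j, w j * μ (E j) = ∑ j ∈ Finset.range N, w j * μ (E j) + ∑' j, w (j + N) * μ (E (j + N)) :=
      (ENNReal.summable.sum_add_tsum_nat_add' (f := fun j => w j * μ (E j)) (k := N)).symm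
    rw [h3]
    refine ENNReal.add_ne_top.2 ⟨?_, h2⟩
    rw [ENNReal.sum_ne_top]
    intro j _
    exact ENNReal.mul_ne_top ENNReal.ofReal_ne_top (measure_ne_top _ _)
  have hint : ∫⁻ ω, ∑' j, w j * (E j).indicator 1 ω ∂μ ≠ ∞ := by
    rw [lintegral_tsum (fun j => ((measurable_one.indicator (hEm j)).const_mul _).aemeasurable)]
    have : ∀ j, ∫⁻ ω, w j * (E j).indicator 1 ω ∂μ = w j * μ (E j) := by
      intro j
      rw [lintegral_const_mul _ (measurable_one.indicator (hEm j)), lintegral_indicator_one (hEm j)]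
    simp_rw [this]
    exact hfin
  have hae : ∀ᵐ ω ∂μ, ∑' j, w j * (E j).indicator 1 ω < ∞ :=
    ae_lt_top (Measurable.tsum fun j => (measurable_one.indicator (hEm j)).const_mul _) hint
  have h01 : ∀ᵐ ω ∂μ, ∀ n, 0 ≤ dens μ ℱ A n ω ∧ dens μ ℱ A n ω ≤ 1 := ae_all_iff.2 fun n => dens01 hA n
  filter_upwards [hae, hd, h01] with ω hω hdω h01ω
  obtain ⟨N, hN⟩ := dens_two hdω hδ0
  obtain ⟨J₁, hJ₁⟩ := eventually_atTop.1 ((tendsto_T hs.big).eventually_ge_atTop N)
  set C : ℝ := (∑' j, w j * (E j).indicator 1 ω).toReal with hC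
  have hC0 : 0 ≤ C := ENNReal.toReal_nonneg
  have hmain : ∀ J : ℕ, 0 < J → (few A T h r J ω : ℝ) ≤ J₁ + 1 + C * (J : ℝ) ^ γ₁ := by
    intro J hJ
    have hJp : (0 : ℝ) < J := by exact_mod_cast hJ
    set F : Finset ℕ := (Finset.Icc (max J₁ 1) J).filter (fun j => cnt A (T j) (h j) ω ≤ r) with hF
    have e1 : few A T h r J ω ≤ (J₁ + 1) + F.card := by
      unfold few
      have : (Finset.range (J + 1)).filter (fun j => cnt A (T j) (h j) ω ≤ r) ⊆ Finset.range (J₁ + 1) ∪ F := by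
        intro j hj
        obtain ⟨g1, g2⟩ := Finset.mem_filter.1 hj
        rw [Finset.mem_union, Finset.mem_range, hF, Finset.mem_filter, Finset.mem_Icc]
        have := Finset.mem_range.1 g1
        by_cases hjj : j < J₁ + 1
        · exact Or.inl hjj
        · exact Or.inr ⟨⟨by omega, by omega⟩, g2⟩
      refine (Finset.card_le_card this).trans ((Finset.card_union_le _ _).trans ?_)
      rw [Finset.card_range]
    have hFE : ∀ j ∈ F, ω ∈ E j := by
      intro j hj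
      obtain ⟨g1, g2⟩ := Finset.mem_filter.1 hj
      have g3 := Finset.mem_Icc.1 g1
      refine ⟨g2, ?_⟩
      rintro ⟨m, hm1, hm2, hm3⟩
      apply hm3
      have hN' := hN N le_rfl
      have := hJ₁ j (by omega)
      exact ⟨hN'.2 m (this.trans hm1), le_min (h01ω m).2 (hN'.1 m (this.trans hm1))⟩
    have e2 : ∑ j ∈ F, w j ≤ ∑' j, w j * (E j).indicator 1 ω := by
      refine le_trans (le_of_eq (Finset.sum_congr rfl fun j hj => ?_)) (ENNReal.sum_le_tsum F)
      rw [indicator_of_mem (hFE j hj)]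
      simp
    have e3 : (F.card : ℝ) * (J : ℝ) ^ (-γ₁) ≤ C := by
      have h1 : ENNReal.ofReal ((F.card : ℝ) * (J : ℝ) ^ (-γ₁)) ≤ ∑' j, w j * (E j).indicator 1 ω := by
        refine le_trans ?_ e2
        have h2 : ∀ j ∈ F, ENNReal.ofReal ((J : ℝ) ^ (-γ₁)) ≤ w j := by
          intro j hj
          have g3 := Finset.mem_Icc.1 (Finset.mem_filter.1 hj).1
          apply ENNReal.ofReal_le_ofReal
          have hj1 : (0 : ℝ) < j := by exact_mod_cast (by omega : 0 < j)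
          have hjJ : (j : ℝ) ≤ J := by exact_mod_cast g3.2
          exact Real.rpow_le_rpow_of_nonpos hj1 hjJ (by linarith)
        calc ENNReal.ofReal ((F.card : ℝ) * (J : ℝ) ^ (-γ₁)) = ∑ j ∈ F, ENNReal.ofReal ((J : ℝ) ^ (-γ₁)) := by
              rw [Finset.sum_const, nsmul_eq_mul, ENNReal.ofReal_mul (Nat.cast_nonneg _), ENNReal.ofReal_natCast]
          _ ≤ _ := Finset.sum_le_sum h2
      rw [hC]
      exact (ENNReal.ofReal_le_iff_le_toReal hω.ne).1 h1
    have e4 : (F.card : ℝ) ≤ C * (J : ℝ) ^ γ₁ := by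
      have h1 := mul_le_mul_of_nonneg_right e3 (Real.rpow_nonneg hJp.le γ₁)
      rw [mul_assoc, ← Real.rpow_add hJp, neg_add_cancel, Real.rpow_zero, mul_one] at h1
      exact h1
    have e5 : (few A T h r J ω : ℝ) ≤ (J₁ + 1) + F.card := by exact_mod_cast e1
    linarith
  filter_upwards [ev_pow (a := γ₁) (b := γ) hγ₁b (C + J₁ + 1), ev_log 0, eventually_gt_atTop 0] with J g1 g2 g3
  have hJ : (1 : ℝ) ≤ J := by exact_mod_cast g3
  have h1 := hmain J g3
  have h2 : 1 ≤ (J : ℝ) ^ γ₁ := Real.one_le_rpow hJ hγ₁0.le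
  have h3 : (C + J₁ + 1) * 1 * (J : ℝ) ^ γ₁ ≤ (C + J₁ + 1) * (Real.log J + 1) * (J : ℝ) ^ γ₁ := by
    apply mul_le_mul_of_nonneg_right _ (by linarith)
    apply mul_le_mul_of_nonneg_left (by linarith) (by positivity)
  have h4 : ((J₁ : ℝ) + 1) * 1 ≤ (J₁ + 1) * (J : ℝ) ^ γ₁ := mul_le_mul_of_nonneg_left h2 (by positivity)
  linarith

/-- the exact exponent of the number of windows with at most `r` members -/
theorem few_law (hA : ∀ n, MeasurableSet[ℱ n] (A n)) {W : ℕ} (hW : 0 < W)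
    (hd : ∀ᵐ ω ∂μ, ∀ ε : ℝ, 0 < ε → ∀ᶠ n : ℕ in atTop, |dens μ ℱ A n ω - rhoW W (n + 1)| ≤ ε * rhoW W (n + 1))
    {T h : ℕ → ℕ} {β : ℝ} (hs : Spar T h β) (hβ : 0 < β) (hβ1 : β < 1) :
    ∀ᵐ ω ∂μ, ∀ r : ℕ, ∀ ε : ℝ, 0 < ε → ∀ᶠ K : ℕ in atTop,
      (K : ℝ) ^ (1 - β - ε) ≤ few A T h r K ω ∧ (few A T h r K ω : ℝ) ≤ (K : ℝ) ^ (1 - β + ε) := by
  have hup : ∀ᵐ ω ∂μ, ∀ r m : ℕ, ∀ᶠ K : ℕ in atTop,
      (few A T h r K ω : ℝ) ≤ (K : ℝ) ^ (1 - β + 1 / ((m : ℝ) + 1)) := by
    rw [ae_all_iff]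
    intro r
    rw [ae_all_iff]
    intro m
    have hm : 0 < 1 / ((m : ℝ) + 1) := by positivity
    exact few_upper (μ := μ) (ℱ := ℱ) hA hW hd hs hβ (by linarith) (by linarith) r
  have hpos : ∀ m : ℕ, 0 < (1 - β) / ((m : ℝ) + 2) := fun m => by
    apply div_pos (by linarith)
    positivity
  have hlt : ∀ m : ℕ, (1 - β) / ((m : ℝ) + 2) < 1 - β := fun m => by
    rw [div_lt_iff₀ (by positivity)]
    have : (0 : ℝ) ≤ m := Nat.cast_nonneg m
    nlinarith
  have hlow : ∀ᵐ ω ∂μ, ∀ m : ℕ, ∀ᶠ J : ℕ in atTop, ∃ j, J ≤ j ∧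
      j < J + ⌈(J : ℝ) ^ (β + (1 - β) / ((m : ℝ) + 2))⌉₊ ∧ cnt A (T j) (h j) ω = 0 := by
    rw [ae_all_iff]
    intro m
    have h1 := hpos m
    have h2 := hlt m
    exact emp_dense (μ := μ) (ℱ := ℱ) hA hW hd hs hβ (by linarith) (by linarith)
  filter_upwards [hup, hlow] with ω hω1 hω2 r ε hε
  obtain ⟨m, hm⟩ := exists_nat_gt (2 / ε)
  have hm0 : (0 : ℝ) < (m : ℝ) + 1 := by positivity
  have hm1 : 1 / ((m : ℝ) + 1) ≤ ε / 2 := by
    rw [div_lt_iff₀ hε] at hm
    rw [div_le_iff₀ hm0]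
    nlinarith
  have hm2 : (1 - β) / ((m : ℝ) + 2) ≤ ε / 2 := by
    refine le_trans ?_ hm1
    rw [div_le_div_iff₀ (by positivity) hm0]
    nlinarith
  have h0 := hpos m
  have h2 := hlt m
  have h3 := emp_lower (A := A) (T := T) (h := h)
    (γ := β + (1 - β) / ((m : ℝ) + 2)) (ε := ε / 2) (by linarith) (by linarith)
    (by linarith) (hω2 m)
  filter_upwards [hω1 r m, h3, eventually_ge_atTop 1] with K g1 g2 g3
  have hK : (1 : ℝ) ≤ K := by exact_mod_cast g3
  constructor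
  · have g4 : (emp A T h K ω : ℝ) ≤ few A T h r K ω := by
      exact_mod_cast emp_le_few A T h r K ω
    refine le_trans ?_ (g2.trans g4)
    apply Real.rpow_le_rpow_of_exponent_le hK
    linarith
  · refine g1.trans ?_
    apply Real.rpow_le_rpow_of_exponent_le hK
    linarith

lemma log_ratio {t : ℕ → ℕ} (h : ∀ᶠ k : ℕ in atTop, k ^ 2 ≤ 4 * t k ∧ t k ≤ (3 * k) ^ 2) :
    Tendsto (fun j : ℕ => Real.log (t j) / Real.log j) atTop (𝓝 2) := by
  have h0 : Tendsto (fun j : ℕ => 2 + (-Real.log 4) / Real.log j) atTop (𝓝 (2 + 0)) :=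
    (tendsto_const_nhds.div_atTop tendsto_log).const_add 2
  have h1 : Tendsto (fun j : ℕ => 2 + 2 * Real.log 3 / Real.log j) atTop (𝓝 (2 + 0)) :=
    (tendsto_const_nhds.div_atTop tendsto_log).const_add 2
  rw [add_zero] at h0 h1
  refine tendsto_of_tendsto_of_tendsto_of_le_of_le' h0 h1 ?_ ?_
  · filter_upwards [h, tendsto_log.eventually_gt_atTop 0, eventually_gt_atTop 0] with j hj hl h0
    have hj0 : (0 : ℝ) < j := by exact_mod_cast h0
    have htpos : (0 : ℝ) < t j := by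
      have h5 : 0 < j ^ 2 := by positivity
      have h6 : 0 < t j := by omega
      exact_mod_cast h6
    rw [le_div_iff₀ hl]
    have h2 : Real.log ((j : ℝ) ^ 2) ≤ Real.log (4 * (t j : ℝ)) :=
      Real.log_le_log (by positivity) (by exact_mod_cast hj.1)
    rw [Real.log_pow, Real.log_mul (by norm_num) htpos.ne'] at h2
    push_cast at h2
    have h3 : (2 + -Real.log 4 / Real.log j) * Real.log j = 2 * Real.log j - Real.log 4 := by
      field_simp
      ring
    linarith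
  · filter_upwards [h, tendsto_log.eventually_gt_atTop 0, eventually_gt_atTop 0] with j hj hl h0
    have hj0 : (0 : ℝ) < j := by exact_mod_cast h0
    have htpos : (0 : ℝ) < t j := by
      have h5 : 0 < j ^ 2 := by positivity
      have h6 : 0 < t j := by omega
      exact_mod_cast h6
    rw [div_le_iff₀ hl]
    have h2 : Real.log (t j) ≤ Real.log ((3 * (j : ℝ)) ^ 2) :=
      Real.log_le_log htpos (by exact_mod_cast hj.2)
    rw [Real.log_pow, Real.log_mul (by norm_num) hj0.ne'] at h2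
    push_cast at h2
    have h3 : (2 + 2 * Real.log 3 / Real.log j) * Real.log j = 2 * Real.log j + 2 * Real.log 3 := by
      field_simp
    linarith

lemma log_sq_small {c : ℝ} (hc : 0 < c) : ∀ᶠ j : ℕ in atTop, c * Real.log j ^ 2 ≤ j := by
  have h3 := (Real.isLittleO_pow_log_id_atTop (n := 2)).def (show (0 : ℝ) < 1 / c by positivity)
  have h4 : ∀ᶠ x : ℝ in atTop, c * Real.log x ^ 2 ≤ x := by
    filter_upwards [h3, eventually_ge_atTop 1] with x h3 h6
    rw [Real.norm_of_nonneg (by positivity), id, Real.norm_of_nonneg (by linarith)] at h3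
    calc c * Real.log x ^ 2 ≤ c * (1 / c * x) := mul_le_mul_of_nonneg_left h3 hc.le
      _ = x := by field_simp
  exact tendsto_natCast_atTop_atTop.eventually h4

/-- windows of length `c (log k)²` at places of size about `k²` -/
lemma spar_of {c : ℝ} (hc : 0 < c) {t : ℕ → ℕ}
    (hdisj : ∀ᶠ k : ℕ in atTop, t k + ⌊c * Real.log k ^ 2⌋₊ ≤ t (k + 1))
    (hbd : ∀ᶠ k : ℕ in atTop, k ^ 2 ≤ 4 * t k ∧ t k ≤ (3 * k) ^ 2) :
    Spar t (fun j => ⌊c * Real.log j ^ 2⌋₊) (c / 2) := by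
  have hsmall' : ∀ᶠ j : ℕ in atTop, ⌊c * Real.log j ^ 2⌋₊ ≤ j := by
    filter_upwards [log_sq_small hc] with j hj
    have := Nat.floor_mono hj
    rwa [Nat.floor_natCast] at this
  have hge : ∀ᶠ j : ℕ in atTop, j ≤ t j := by
    filter_upwards [hbd, eventually_ge_atTop 4] with j hj h1
    nlinarith [hj.1]
  have hbig : Tendsto (fun j : ℕ => Real.log (t j)) atTop atTop := by
    refine tendsto_atTop_mono' _ ?_ tendsto_log
    filter_upwards [hge, eventually_ge_atTop 1] with j hj h1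
    exact Real.log_le_log (by exact_mod_cast h1) (by exact_mod_cast hj)
  refine ⟨hdisj, hbig, ?_, ?_⟩
  · apply ratio_of_le hbig
    filter_upwards [hsmall', hge] with j h1 h2
    exact h1.trans h2
  · have h1 : Tendsto (fun j : ℕ => ((⌊c * Real.log j ^ 2⌋₊ : ℕ) : ℝ) / Real.log j ^ 2) atTop (𝓝 c) :=
      (tendsto_nat_floor_mul_div_atTop hc.le).comp ((tendsto_pow_atTop (n := 2) two_ne_zero).comp tendsto_log)
    have h2 := h1.div (log_ratio hbd) two_ne_zero
    refine h2.congr' ?_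
    filter_upwards [tendsto_log.eventually_gt_atTop 0, hbig.eventually_gt_atTop 0] with j hj hj2
    simp only [Pi.div_apply]
    have := hj.ne'
    have := hj2.ne'
    field_simp

end Pool.Agent.H636.FW
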