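import Mathlib
import Pool.Agent.H636.FW.Few

set_option autoImplicit false
set_option linter.unusedSectionVars false
set_option linter.unusedVariables false

/-! # The spectrum of the numbers of members along a sparse sequence

The exact exponent of the number of windows with at most (at least) `s` times the mean number of
members.  Adaptation of `Pool.Agent.R528.RM.{spar_io, emp_dense, emp_lower}` from empty windows to all levels. -/

open MeasureTheory Filter Set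
open scoped ENNReal Topology

namespace Pool.Agent.H636.FW

open Pool.Agent.R528.RM

variable {Ω : Type} {m0 : MeasurableSpace Ω} {μ : Measure Ω} [IsProbabilityMeasure μ]
  {ℱ : Filtration ℕ m0} {A : ℕ → Set Ω}

/-- lower bound for prescribed counts of order `c log j` -/
theorem Gb_level {W : ℕ} (hW : 0 < W)
    {T h : ℕ → ℕ} {β c γ : ℝ} (hs : Spar T h β) (hβ : 0 < β) (hc : 0 < c) (K : ℕ → ℕ)
    (hK : Tendsto (fun j : ℕ => (K j : ℝ) / Real.log j) atTop (𝓝 c)) (hrate : 0 < γ + c * (1 + Real.log (β / c)) - β) :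
    ∃ δ : ℝ, 0 < δ ∧ δ ≤ 1 / 4 ∧ ∀ᶠ j : ℕ in atTop,
      (j : ℝ) ^ (-γ) ≤ Gb (up W δ) (Pj W T h j) (lmj W T h δ j) (T j) (h j) (K j) := by
  -- choose `δ`
  obtain ⟨δ, hδ0, hδ1, hδ⟩ : ∃ δ : ℝ, 0 < δ ∧ δ ≤ 1 / 4 ∧
      0 < γ + c * (1 + Real.log ((1 - δ) * (β / c))) - (1 + δ) ^ 2 * β := by
    have hcont : ContinuousAt (fun δ : ℝ => γ + c * (1 + Real.log ((1 - δ) * (β / c))) - (1 + δ) ^ 2 * β) 0 := by
      have h1 : (1 - 0) * (β / c) ≠ 0 := by
        rw [sub_zero, one_mul]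
        positivity
      fun_prop (disch := assumption)
    have h0 : (fun δ : ℝ => γ + c * (1 + Real.log ((1 - δ) * (β / c))) - (1 + δ) ^ 2 * β) 0 =
        γ + c * (1 + Real.log (β / c)) - β := by simp
    have h1 := hcont.eventually (eventually_gt_nhds (show (0 : ℝ) <
      (fun δ : ℝ => γ + c * (1 + Real.log ((1 - δ) * (β / c))) - (1 + δ) ^ 2 * β) 0 by rw [h0]; exact hrate))
    obtain ⟨ε, hε, hball⟩ := Metric.eventually_nhds_iff.1 h1
    refine ⟨min (ε / 2) (1 / 4), lt_min (by positivity) (by norm_num), min_le_right _ _, ?_⟩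
    apply hball
    rw [Real.dist_eq, sub_zero, abs_of_pos (lt_min (by positivity) (by norm_num))]
    exact lt_of_le_of_lt (min_le_left _ _) (by linarith)
  refine ⟨δ, hδ0, hδ1, ?_⟩
  have hφ : (0 : ℝ) < Nat.totient W := by exact_mod_cast Nat.totient_pos.2 hW
  have hW' : (0 : ℝ) < W := by exact_mod_cast hW
  have hcW : 0 < (W : ℝ) / Nat.totient W := by positivity
  have hR := Rw_lim hW hs
  have hlogj := tendsto_log
  -- the ratio `R / K`
  have hRK : Tendsto (fun j : ℕ => Rw W T h j / K j) atTop (𝓝 (β / c)) := by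
    have h1 := hR.div hK hc.ne'
    refine h1.congr' ?_
    filter_upwards [hlogj.eventually_gt_atTop 0] with j hj
    show Rw W T h j / Real.log j / (K j / Real.log j) = _
    have := hj.ne'
    field_simp
  have hKt : Tendsto (fun j : ℕ => (K j : ℝ)) atTop atTop := by
    have h1 := hlogj.atTop_mul_pos hc hK
    refine h1.congr' ?_
    filter_upwards [hlogj.eventually_gt_atTop 0] with j hj
    have := hj.ne'
    field_simp
  -- the argument of the logarithm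
  have harg : Tendsto (fun j : ℕ => (1 - δ) * (Rw W T h j / K j / (Real.log ((T j + h j : ℕ) : ℝ) / Real.log (T j)) -
      ((W : ℝ) / Nat.totient W) / (Real.log (T j)) / (Real.log ((T j + h j : ℕ) : ℝ) / Real.log (T j)))) atTop (𝓝 ((1 - δ) * (β / c))) := by
    have h1 := hRK.div hs.ratio one_ne_zero
    have h2 : Tendsto (fun j : ℕ => ((W : ℝ) / Nat.totient W) / (Real.log (T j))) atTop (𝓝 0) := tendsto_const_nhds.div_atTop hs.big
    have h3 := h2.div hs.ratio one_ne_zero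
    rw [div_one] at h1 h3
    have h4 := (h1.sub h3).const_mul (1 - δ)
    rw [sub_zero] at h4
    exact h4
  have hargpos : 0 < (1 - δ) * (β / c) := by
    have : 0 < 1 - δ := by linarith
    positivity
  have hE : Tendsto (fun j : ℕ => (K j : ℝ) / Real.log j * (1 + Real.log ((1 - δ) * (Rw W T h j / K j / (Real.log ((T j + h j : ℕ) : ℝ) / Real.log (T j)) -
      ((W : ℝ) / Nat.totient W) / (Real.log (T j)) / (Real.log ((T j + h j : ℕ) : ℝ) / Real.log (T j))))) -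
      Real.log (K j) / K j * ((K j : ℝ) / Real.log j) - 1 / Real.log j - (1 + δ) ^ 2 * (Rw W T h j / Real.log j)) atTop
      (𝓝 (c * (1 + Real.log ((1 - δ) * (β / c))) - 0 * c - 0 - (1 + δ) ^ 2 * β)) := by
    have h1 := hK.mul ((harg.log hargpos.ne').const_add 1)
    have h2 : Tendsto (fun j : ℕ => Real.log (K j : ℝ) / K j) atTop (𝓝 0) :=
      (Real.isLittleO_log_id_atTop.tendsto_div_nhds_zero).comp hKt
    have h3 : Tendsto (fun j : ℕ => 1 / Real.log (j : ℝ)) atTop (𝓝 0) := tendsto_const_nhds.div_atTop hlogj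
    exact ((h1.sub (h2.mul hK)).sub h3).sub (hR.const_mul _)
  have hgt : -γ < c * (1 + Real.log ((1 - δ) * (β / c))) - 0 * c - 0 - (1 + δ) ^ 2 * β := by linarith
  filter_upwards [hE.eventually (eventually_gt_nhds hgt), harg.eventually (eventually_gt_nhds hargpos), hlogj.eventually_gt_atTop 0,
    hs.big.eventually_gt_atTop 0, hKt.eventually_ge_atTop 1, prod_absent hW hs hδ0 hδ1, dj_ge hW hs, lmj_bounds hW hs hδ0 hδ1,
    eventually_gt_atTop 0] with j g1 g2 g3 g4 g5 g6 g7 g8 g9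
  have hj : (0 : ℝ) < j := by exact_mod_cast g9
  have hK1 : 1 ≤ K j := by exact_mod_cast g5
  have hKp : (0 : ℝ) < K j := by linarith
  have hT1 : 1 ≤ T j := by
    by_contra hcon
    have : T j = 0 := by omega
    rw [this] at g4
    simp at g4
  have hTh : Real.log (T j) ≤ Real.log ((T j + h j : ℕ) : ℝ) := Real.log_le_log (by exact_mod_cast hT1) (by exact_mod_cast Nat.le_add_right _ _)
  have hThp : 0 < Real.log ((T j + h j : ℕ) : ℝ) := lt_of_lt_of_le g4 hTh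
  set d : ℕ := ((Finset.range (h j)).filter (fun i => Pj W T h j (T j + 1 + i))).card with hdd
  set X : ℝ := (1 - δ) * (Rw W T h j / K j / (Real.log ((T j + h j : ℕ) : ℝ) / Real.log (T j)) -
      ((W : ℝ) / Nat.totient W) / (Real.log (T j)) / (Real.log ((T j + h j : ℕ) : ℝ) / Real.log (T j))) with hX
  have hδp : 0 < 1 - δ := by linarith
  -- comparison
  have hcomp : X ≤ ((d : ℝ) - K j) * lmj W T h δ j / K j := by
    have e1 : X = (Rw W T h j * Real.log (T j) - K j * ((W : ℝ) / Nat.totient W)) * ((1 - δ) / Real.log ((T j + h j : ℕ) : ℝ)) / K j := by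
      rw [hX]
      have a1 := g4.ne'
      have a2 := hThp.ne'
      have a3 := hKp.ne'
      set x := Real.log (T j : ℝ)
      set y := Real.log ((T j + h j : ℕ) : ℝ)
      set z := (W : ℝ) / Nat.totient W
      field_simp
    have e2 : ((d : ℝ) - K j) * lmj W T h δ j / K j = ((d : ℝ) * ((W : ℝ) / Nat.totient W) - K j * ((W : ℝ) / Nat.totient W)) * ((1 - δ) / Real.log ((T j + h j : ℕ) : ℝ)) / K j := by
      unfold lmj
      ring
    rw [e1, e2]
    apply div_le_div_of_nonneg_right _ hKp.le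
    apply mul_le_mul_of_nonneg_right _ (by positivity)
    linarith
  have hlm := g8.1
  have hdK : K j < d := by
    have e1 : 0 < ((d : ℝ) - K j) * lmj W T h δ j / K j := lt_of_lt_of_le g2 hcomp
    have e2 : 0 < ((d : ℝ) - K j) := by
      by_contra hcon
      push Not at hcon
      have : ((d : ℝ) - K j) * lmj W T h δ j / K j ≤ 0 := div_nonpos_of_nonpos_of_nonneg (mul_nonpos_of_nonpos_of_nonneg hcon hlm.le) hKp.le
      linarith
    have e3 : (K j : ℝ) < d := by linarith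
    exact_mod_cast e3
  have hdK' : 0 < (d : ℝ) - K j := by
    have : (K j : ℝ) < d := by exact_mod_cast hdK
    linarith
  have hch := choose_ge d (K j) hK1 hdK
  have hlmpow : lmj W T h δ j ^ K j = Real.exp (K j * Real.log (lmj W T h δ j)) := by
    rw [← Real.rpow_natCast, Real.rpow_def_of_pos hlm, mul_comm]
  have hGb : Real.exp (K j * (1 + Real.log (((d : ℝ) - K j) / K j)) - Real.log (K j) - 1) * Real.exp (K j * Real.log (lmj W T h δ j)) *
      Real.exp (-((1 + δ) ^ 2 * Rw W T h j)) ≤ Gb (up W δ) (Pj W T h j) (lmj W T h δ j) (T j) (h j) (K j) := by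
    unfold Gb
    rw [hlmpow]
    apply mul_le_mul (mul_le_mul_of_nonneg_right hch (Real.exp_pos _).le) g6 (Real.exp_pos _).le
    positivity
  refine le_trans ?_ hGb
  rw [← Real.exp_add, ← Real.exp_add]
  have hlog : Real.log (((d : ℝ) - K j) / K j) + Real.log (lmj W T h δ j) = Real.log (((d : ℝ) - K j) * lmj W T h δ j / K j) := by
    rw [← Real.log_mul (by positivity) hlm.ne']
    congr 1
    ring
  have hlog2 : Real.log X ≤ Real.log (((d : ℝ) - K j) * lmj W T h δ j / K j) := Real.log_le_log g2 hcomp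
  have e1 : (j : ℝ) ^ (-γ) = Real.exp (-(γ * Real.log j)) := by
    rw [Real.rpow_def_of_pos hj]
    congr 1
    ring
  rw [e1]
  apply Real.exp_le_exp.2
  have g1' := mul_lt_mul_of_pos_right g1 g3
  have e2 : ((K j : ℝ) / Real.log j * (1 + Real.log X) - Real.log (K j) / K j * ((K j : ℝ) / Real.log j) - 1 / Real.log j -
      (1 + δ) ^ 2 * (Rw W T h j / Real.log j)) * Real.log j =
      K j * (1 + Real.log X) - Real.log (K j) - 1 - (1 + δ) ^ 2 * Rw W T h j := by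
    have a1 := g3.ne'
    have a3 := hKp.ne'
    set y := Real.log (j : ℝ)
    set z := Real.log X
    set w := Real.log (K j : ℝ)
    field_simp
  rw [e2] at g1'
  have h5 : (K j : ℝ) * Real.log X ≤ K j * (Real.log (((d : ℝ) - K j) / K j) + Real.log (lmj W T h δ j)) := by
    rw [hlog]
    exact mul_le_mul_of_nonneg_left hlog2 hKp.le
  nlinarith only [g1', h5]

/-- prescribed counts occur at short distances -/
theorem dense_level (hA : ∀ n, MeasurableSet[ℱ n] (A n)) {W : ℕ} (hW : 0 < W)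
    (hd : ∀ᵐ ω ∂μ, ∀ ε : ℝ, 0 < ε → ∀ᶠ n : ℕ in atTop, |dens μ ℱ A n ω - rhoW W (n + 1)| ≤ ε * rhoW W (n + 1))
    {T h : ℕ → ℕ} {β c γ : ℝ} (hs : Spar T h β) (hβ : 0 < β) (hc : 0 < c) (K : ℕ → ℕ)
    (hK : Tendsto (fun j : ℕ => (K j : ℝ) / Real.log j) atTop (𝓝 c))
    (hr : 0 ≤ β - c * (1 + Real.log (β / c))) (hγ : β - c * (1 + Real.log (β / c)) < γ) (hγ1 : γ < 1) :
    ∀ᵐ ω ∂μ, ∀ᶠ J : ℕ in atTop, ∃ j, J ≤ j ∧ j < J + ⌈(J : ℝ) ^ γ⌉₊ ∧ cnt A (T j) (h j) ω = K j := by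
  set γ' : ℝ := (β - c * (1 + Real.log (β / c)) + γ) / 2 with hγ'
  have hγ'1 : β - c * (1 + Real.log (β / c)) < γ' := by rw [hγ']; linarith
  have hγ'2 : γ' < γ := by rw [hγ']; linarith
  obtain ⟨δ, hδ0, hδ1, hG⟩ := Gb_level (γ := γ') hW hs hβ hc K hK (by linarith)
  have hu0 : ∀ n, 0 ≤ up W δ n := fun n => le_min zero_le_one (mul_nonneg (by linarith) (rhoW_nonneg W n))
  have hu1 : ∀ n, up W δ n ≤ 1 := fun n => min_le_left _ _
  obtain ⟨J₀, hJ₀⟩ := eventually_atTop.1 ((hG.and (lmj_bounds hW hs hδ0 hδ1)).and hs.disj)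
  set D : ℕ → Set Ω := fun j => {ω | cnt A (T j) (h j) ω = K j} ∪ WV (VB μ ℱ A (Pool.Agent.R528.RM.lp W δ) (up W δ)) (T j) (h j) with hD
  have hnone := seq_none (μ := μ) (ℱ := ℱ) (T := T) (h := h) (J₀ := J₀) (fun j hj => (hJ₀ j hj).2) (D := D)
    (fun j hj => @MeasurableSet.union _ (ℱ (T j + h j)) _ _ (cnt_meas hA _ _ _) (WV_meas (fun n => VB_meas _ _ n) _ _))
    (p := fun j => Gb (up W δ) (Pj W T h j) (lmj W T h δ j) (T j) (h j) (K j))
    (fun j hj => Gb_le_one hu0 hu1 _ (hJ₀ j hj).1.2.1.le (hJ₀ j hj).1.2.2.2 _ _ _)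
    (fun j hj B hB => cnt_ge_prof (μ := μ) hA hu0 hu1 _ (hJ₀ j hj).1.2.1.le (hJ₀ j hj).1.2.2.1 (hJ₀ j hj).1.2.2.2 _ _ _ B hB)
  have hb : ∀ᶠ J : ℕ in atTop, μ.real {ω | ∀ j, J ≤ j → j < J + ⌈(J : ℝ) ^ γ⌉₊ → ω ∉ D j} ≤ (J : ℝ) ^ (-2 : ℝ) := by
    filter_upwards [eventually_ge_atTop J₀, eventually_gt_atTop 0, ev_pow (a := 0) (b := γ - γ') (by linarith) 6, ev_log 0] with J g1 g2 g3 g4
    have hJ : (1 : ℝ) ≤ J := by exact_mod_cast g2
    have hJp : (0 : ℝ) < J := by linarith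
    rw [Real.rpow_zero, mul_one] at g3
    refine (hnone J g1 _).1.trans ?_
    have e0 : (J : ℝ) ^ (-2 : ℝ) = Real.exp (-(2 * Real.log J)) := by
      rw [Real.rpow_def_of_pos hJp]
      congr 1
      ring
    rw [e0, Real.exp_le_exp]
    have hM : (J : ℝ) ^ γ ≤ ⌈(J : ℝ) ^ γ⌉₊ := Nat.le_ceil _
    have hM2 : ((⌈(J : ℝ) ^ γ⌉₊ : ℕ) : ℝ) ≤ 2 * J := by
      have h1 := Nat.ceil_lt_add_one (show 0 ≤ (J : ℝ) ^ γ by positivity)
      have h2 : (J : ℝ) ^ γ ≤ (J : ℝ) ^ (1 : ℝ) := Real.rpow_le_rpow_of_exponent_le hJ hγ1.le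
      rw [Real.rpow_one] at h2
      linarith
    have hterm : ∀ j ∈ Finset.Ico J (J + ⌈(J : ℝ) ^ γ⌉₊), (3 * (J : ℝ)) ^ (-γ') ≤ Gb (up W δ) (Pj W T h j) (lmj W T h δ j) (T j) (h j) (K j) := by
      intro j hj
      obtain ⟨h1, h2⟩ := Finset.mem_Ico.1 hj
      refine le_trans ?_ (hJ₀ j (g1.trans h1)).1.1
      have h3 : (j : ℝ) ≤ 3 * J := by
        have : (j : ℝ) ≤ J + (⌈(J : ℝ) ^ γ⌉₊ : ℕ) := by exact_mod_cast h2.le
        linarith
      have h4 : (0 : ℝ) < j := by exact_mod_cast (by omega : 0 < j)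
      exact Real.rpow_le_rpow_of_nonpos h4 h3 (by linarith)
    have hsum : (⌈(J : ℝ) ^ γ⌉₊ : ℝ) * (3 * (J : ℝ)) ^ (-γ') ≤ ∑ j ∈ Finset.Ico J (J + ⌈(J : ℝ) ^ γ⌉₊), Gb (up W δ) (Pj W T h j) (lmj W T h δ j) (T j) (h j) (K j) := by
      have := Finset.card_nsmul_le_sum _ _ _ hterm
      rw [Nat.card_Ico, Nat.add_sub_cancel_left, nsmul_eq_mul] at this
      exact this
    have h3 : (1 / 3 : ℝ) * (J : ℝ) ^ (γ - γ') ≤ (⌈(J : ℝ) ^ γ⌉₊ : ℝ) * (3 * (J : ℝ)) ^ (-γ') := by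
      have e1 : (3 * (J : ℝ)) ^ (-γ') = (3 : ℝ) ^ (-γ') * (J : ℝ) ^ (-γ') := Real.mul_rpow (by norm_num) hJp.le
      have e2 : (1 / 3 : ℝ) ≤ (3 : ℝ) ^ (-γ') := by
        have : (3 : ℝ) ^ (-1 : ℝ) ≤ (3 : ℝ) ^ (-γ') := Real.rpow_le_rpow_of_exponent_le (by norm_num) (by linarith)
        rw [Real.rpow_neg_one] at this
        linarith
      have e3 : (J : ℝ) ^ (γ - γ') = (J : ℝ) ^ γ * (J : ℝ) ^ (-γ') := by rw [← Real.rpow_add hJp]; congr 1
      rw [e1, e3]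
      have e4 : 0 < (J : ℝ) ^ (-γ') := Real.rpow_pos_of_pos hJp _
      have e5 : 0 < (J : ℝ) ^ γ := Real.rpow_pos_of_pos hJp _
      calc (1 / 3 : ℝ) * ((J : ℝ) ^ γ * (J : ℝ) ^ (-γ')) ≤ (3 : ℝ) ^ (-γ') * ((J : ℝ) ^ γ * (J : ℝ) ^ (-γ')) :=
            mul_le_mul_of_nonneg_right e2 (by positivity)
        _ ≤ (3 : ℝ) ^ (-γ') * ((⌈(J : ℝ) ^ γ⌉₊ : ℝ) * (J : ℝ) ^ (-γ')) := by
            apply mul_le_mul_of_nonneg_left _ (by positivity)
            exact mul_le_mul_of_nonneg_right hM e4.le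
        _ = _ := by ring
    linarith
  have hsum : Summable (fun n : ℕ => (n : ℝ) ^ (-2 : ℝ)) := summable_pow_nat (by norm_num)
  have h01 : ∀ᵐ ω ∂μ, ∀ n, 0 ≤ dens μ ℱ A n ω ∧ dens μ ℱ A n ω ≤ 1 := ae_all_iff.2 fun n => dens01 hA n
  filter_upwards [bc_real (μ := μ) hsum hb, hd, h01] with ω hω hdω h01ω
  obtain ⟨N, hN⟩ := dens_two hdω hδ0
  obtain ⟨J₁, hJ₁⟩ := eventually_atTop.1 ((tendsto_T hs.big).eventually_ge_atTop N)
  filter_upwards [hω, eventually_ge_atTop J₁] with J g1 g2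
  have g3 : ¬ ∀ j, J ≤ j → j < J + ⌈(J : ℝ) ^ γ⌉₊ → ω ∉ D j := g1
  push Not at g3
  obtain ⟨j, hj1, hj2, hj3⟩ := g3
  refine ⟨j, hj1, hj2, ?_⟩
  rcases hj3 with h1 | ⟨m, hm1, hm2, hm3⟩
  · exact h1
  · exfalso
    apply hm3
    have hN' := hN N le_rfl
    have := hJ₁ j (g2.trans hj1)
    exact ⟨hN'.2 m (this.trans hm1), le_min (h01ω m).2 (hN'.1 m (this.trans hm1))⟩

/-- a property which holds at short distances holds often -/
lemma dense_count {P : ℕ → Prop} [DecidablePred P] {γ ε : ℝ} (hγ0 : 0 < γ) (hγ1 : γ < 1) (hε : 0 < ε)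
    (hdense : ∀ᶠ J : ℕ in atTop, ∃ j, J ≤ j ∧ j < J + ⌈(J : ℝ) ^ γ⌉₊ ∧ P j) :
    ∀ᶠ J : ℕ in atTop, (J : ℝ) ^ (1 - γ - ε) ≤ (((Finset.range (J + 1)).filter P).card : ℕ) := by
  obtain ⟨J₀, hJ₀⟩ := eventually_atTop.1 hdense
  filter_upwards [eventually_ge_atTop (2 * J₀ + 2), ev_pow (a := γ) (b := 1) hγ1 16, ev_pow (a := 1 - γ - ε) (b := 1 - γ) (by linarith) 16,
    ev_log 0] with N g1 g2 g3 g4
  have hN1 : (1 : ℝ) ≤ N := by exact_mod_cast (by omega : 1 ≤ N)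
  have hNp : (0 : ℝ) < N := by linarith
  rw [Real.rpow_one] at g2
  set m : ℕ := ⌈(N : ℝ) ^ γ⌉₊ with hm
  have hm1 : (N : ℝ) ^ γ ≤ m := Nat.le_ceil _
  have hNγ : 1 ≤ (N : ℝ) ^ γ := Real.one_le_rpow hN1 hγ0.le
  have hm2 : (m : ℝ) ≤ 2 * (N : ℝ) ^ γ := by
    have := Nat.ceil_lt_add_one (show 0 ≤ (N : ℝ) ^ γ by positivity)
    linarith
  have hm0 : 0 < m := by
    have : (0 : ℝ) < m := by linarith
    exact_mod_cast this
  set K : ℕ := (N - N / 2) / m with hK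
  have hKm : m * K ≤ N - N / 2 := Nat.mul_div_le _ _
  have hcard : K ≤ ((Finset.range (N + 1)).filter P).card := by
    rw [← Finset.card_range K]
    apply Finset.card_le_card_of_surjOn (fun j => (j - N / 2) / m)
    intro i hi
    have hi' : i < K := Finset.mem_range.1 (Finset.mem_coe.1 hi)
    have h1 : m * i + m ≤ m * K := by
      have : m * (i + 1) ≤ m * K := Nat.mul_le_mul_left _ hi'
      linarith
    have hJle : N / 2 + m * i ≤ N := by omega
    obtain ⟨j, hj1, hj2, hj3⟩ := hJ₀ (N / 2 + m * i) (by omega)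
    have h2 : ⌈((N / 2 + m * i : ℕ) : ℝ) ^ γ⌉₊ ≤ m := by
      apply Nat.ceil_mono
      exact Real.rpow_le_rpow (Nat.cast_nonneg _) (by exact_mod_cast hJle) hγ0.le
    refine ⟨j, ?_, ?_⟩
    · rw [Finset.mem_coe, Finset.mem_filter, Finset.mem_range]
      exact ⟨by omega, hj3⟩
    · show (j - N / 2) / m = i
      rw [Nat.div_eq_iff hm0]
      have h3 : i * m = m * i := Nat.mul_comm _ _
      constructor <;> omega
  have hK2 : (N : ℝ) / 2 < m * (K + 1) := by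
    have h1 : N - N / 2 < m * (K + 1) := Nat.lt_mul_div_succ _ hm0
    have h2 : (N : ℝ) ≤ 2 * ((N - N / 2 : ℕ) : ℝ) := by exact_mod_cast (by omega : N ≤ 2 * (N - N / 2))
    have h3 : ((N - N / 2 : ℕ) : ℝ) < m * (K + 1) := by exact_mod_cast h1
    linarith
  have hcard' : (K : ℝ) ≤ ((Finset.range (N + 1)).filter P).card := by exact_mod_cast hcard
  refine le_trans ?_ hcard'
  have h5 : (N : ℝ) ^ (1 - γ) * (N : ℝ) ^ γ = N := by
    rw [← Real.rpow_add hNp, sub_add_cancel, Real.rpow_one]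
  have hpγ : 0 < (N : ℝ) ^ γ := by linarith
  have h6 : (N : ℝ) ^ (1 - γ) / 4 < K + 1 := by
    have e1 : (N : ℝ) / 2 < 2 * (N : ℝ) ^ γ * (K + 1) := lt_of_lt_of_le hK2 (mul_le_mul_of_nonneg_right hm2 (by positivity))
    have e1' : (N : ℝ) ^ (1 - γ) * (N : ℝ) ^ γ / 2 < 2 * (N : ℝ) ^ γ * (K + 1) := by rw [h5]; exact e1
    have e2 : (N : ℝ) ^ γ * ((N : ℝ) ^ (1 - γ) / 4) < (N : ℝ) ^ γ * (K + 1) := by
      linarith only [e1']
    exact lt_of_mul_lt_mul_left e2 hpγ.le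
  have h7 : 0 ≤ (N : ℝ) ^ (1 - γ - ε) := by positivity
  have h8 : 16 * (N : ℝ) ^ (1 - γ - ε) ≤ (N : ℝ) ^ (1 - γ) := by
    refine le_trans ?_ g3
    have : 16 * 1 * (N : ℝ) ^ (1 - γ - ε) ≤ 16 * (Real.log N + 1) * (N : ℝ) ^ (1 - γ - ε) := by
      apply mul_le_mul_of_nonneg_right _ h7
      linarith
    linarith
  have h9 : 16 ≤ (N : ℝ) ^ (1 - γ) := by
    have e1 : 16 * (N : ℝ) ^ γ ≤ N := by
      refine le_trans ?_ g2
      have : 16 * 1 * (N : ℝ) ^ γ ≤ 16 * (Real.log N + 1) * (N : ℝ) ^ γ := by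
        apply mul_le_mul_of_nonneg_right _ hpγ.le
        linarith
      linarith
    have e1' : 16 * (N : ℝ) ^ γ ≤ (N : ℝ) ^ (1 - γ) * (N : ℝ) ^ γ := by rw [h5]; exact e1
    exact le_of_mul_le_mul_right e1' hpγ
  linarith

/-- the levels `k ≤ s β log j` if `s < 1`, `k ≥ s β log j` if `s > 1` -/
def lev (s β : ℝ) (j : ℕ) : Set ℕ := {k | s ^ (s * β * Real.log j) ≤ s ^ k}

open Classical in
/-- the number of windows up to `J` at the level `s` -/
noncomputable def dev (A : ℕ → Set Ω) (T h : ℕ → ℕ) (s β : ℝ) (J : ℕ) (ω : Ω) : ℕ :=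
  ((Finset.range (J + 1)).filter (fun j => cnt A (T j) (h j) ω ∈ lev s β j)).card

lemma cnt_mem_meas (hA : ∀ n, MeasurableSet[ℱ n] (A n)) (t j : ℕ) (S : Set ℕ) :
    MeasurableSet[ℱ (t + j)] {ω | cnt A t j ω ∈ S} := by
  have h1 : {ω | cnt A t j ω ∈ S} = ⋃ k ∈ S, {ω | cnt A t j ω = k} := by
    ext ω
    simp only [mem_ofPred_eq, mem_iUnion, exists_prop, exists_eq_right']
  rw [h1]
  exact MeasurableSet.biUnion (m := ℱ (t + j)) (Set.to_countable S) (fun k _ => cnt_meas hA t j k)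

/-- upper bound for the number of windows at the level `s` -/
theorem dev_upper (hA : ∀ n, MeasurableSet[ℱ n] (A n)) {W : ℕ} (hW : 0 < W)
    (hd : ∀ᵐ ω ∂μ, ∀ ε : ℝ, 0 < ε → ∀ᶠ n : ℕ in atTop, |dens μ ℱ A n ω - rhoW W (n + 1)| ≤ ε * rhoW W (n + 1))
    {T h : ℕ → ℕ} {β γ s ρ : ℝ} (hs : Spar T h β) (hβ : 0 < β) (hs0 : 0 < s) (hρ : ρ = β * (s * Real.log s - s + 1))
    (hγ : 1 - ρ < γ) (hγ0 : 0 < γ) :
    ∀ᵐ ω ∂μ, ∀ᶠ J : ℕ in atTop, (dev A T h s β J ω : ℝ) ≤ (J : ℝ) ^ γ := by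
  classical
  set γ₁ : ℝ := (max (1 - ρ) 0 + γ) / 2 with hγ₁
  have hmaxγ : max (1 - ρ) 0 < γ := max_lt hγ hγ0
  have hγ₁a : 1 - ρ < γ₁ := lt_of_le_of_lt (le_max_left _ _) (by rw [hγ₁]; linarith)
  have hγ₁0 : 0 < γ₁ := lt_of_le_of_lt (le_max_right (1 - ρ) 0) (by rw [hγ₁]; linarith)
  have hγ₁b : γ₁ < γ := by rw [hγ₁]; linarith
  set η : ℝ := γ₁ - (1 - ρ) with hη
  have hη0 : 0 < η := by linarith
  -- `δ`
  obtain ⟨δ, hδ0, hδ1, hδ⟩ : ∃ δ : ℝ, 0 < δ ∧ δ ≤ 1 / 2 ∧ δ * (1 + s) * β ≤ η / 8 := by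
    have hs1 : 0 < 1 + s := by linarith
    refine ⟨min (1 / 2) (η / (8 * ((1 + s) * β))), lt_min (by norm_num) (by positivity), min_le_left _ _, ?_⟩
    have h2 : min (1 / 2) (η / (8 * ((1 + s) * β))) ≤ η / (8 * ((1 + s) * β)) := min_le_right _ _
    rw [le_div_iff₀ (by positivity)] at h2
    linarith
  have hl1 : ∀ n, Pool.Agent.R528.RM.lp W δ n ≤ 1 := by
    intro n
    have h1 := rhoW_le W n
    have h2 := rhoW_nonneg W n
    unfold Pool.Agent.R528.RM.lp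
    nlinarith only [h1, h2, hδ0, hδ1]
  have hu0 : ∀ n, 0 ≤ up W δ n := fun n => le_min zero_le_one (mul_nonneg (by linarith) (rhoW_nonneg W n))
  set E : ℕ → Set Ω := fun j => {ω | cnt A (T j) (h j) ω ∈ lev s β j} \ WV (VB μ ℱ A (Pool.Agent.R528.RM.lp W δ) (up W δ)) (T j) (h j) with hE
  have hEm : ∀ j, MeasurableSet (E j) := fun j => (ℱ.le _ _ (cnt_mem_meas hA _ _ _)).diff (ℱ.le _ _ (WV_meas (fun n => VB_meas _ _ n) _ _))
  have hR := Rw_lim hW hs
  have hprob : ∀ᶠ j : ℕ in atTop, μ.real (E j) ≤ (j : ℝ) ^ (-(ρ - η / 2)) := by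
    have h1 := (hR.const_mul (s - 1 + δ * (1 + s))).eventually
      (eventually_lt_nhds (show (s - 1 + δ * (1 + s)) * β < (s - 1) * β + η / 4 by nlinarith))
    filter_upwards [h1, tendsto_log.eventually_gt_atTop 0, eventually_gt_atTop 0] with j g1 g2 g3
    have hj : (0 : ℝ) < j := by exact_mod_cast g3
    have h2 := cnt_tail_prof (μ := μ) (ℱ := ℱ) hA hl1 hu0 (κ := s * β * Real.log j) hs0 (lev s β j)
      (fun k hk => hk) (T j) (h j)
    refine (le_trans (measureReal_mono (fun ω hω => hω) (measure_ne_top _ _)) h2).trans ?_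
    rw [Real.rpow_def_of_pos hj, ← Real.exp_add, Real.exp_le_exp]
    have h4 : ∑ i ∈ Finset.range (h j), (s * up W δ (T j + 1 + i) - Pool.Agent.R528.RM.lp W δ (T j + 1 + i)) ≤
        (s - 1 + δ * (1 + s)) * Rw W T h j := by
      unfold Rw
      rw [Finset.mul_sum]
      apply Finset.sum_le_sum
      intro i _
      have g1 : up W δ (T j + 1 + i) ≤ (1 + δ) * rhoW W (T j + 1 + i) := min_le_right _ _
      have g2 := mul_le_mul_of_nonneg_left g1 hs0.le
      unfold Pool.Agent.R528.RM.lp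
      linarith
    rw [← mul_div_assoc, div_lt_iff₀ g2] at g1
    have h5 : ρ * Real.log j = β * (s * Real.log s - s + 1) * Real.log j := by rw [hρ]
    nlinarith
  -- the weighted series
  set w : ℕ → ℝ≥0∞ := fun j => ENNReal.ofReal ((j : ℝ) ^ (-γ₁)) with hw
  have hfin : ∑' j, w j * μ (E j) ≠ ∞ := by
    obtain ⟨N, hN⟩ := eventually_atTop.1 (hprob.and (eventually_gt_atTop 0))
    have hsum : Summable (fun j : ℕ => (j : ℝ) ^ (-(1 + η / 2))) := summable_pow_nat (by linarith)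
    have h1 : ∀ j, N ≤ j → w j * μ (E j) ≤ ENNReal.ofReal ((j : ℝ) ^ (-(1 + η / 2))) := by
      intro j hj
      obtain ⟨g1, g2⟩ := hN j hj
      have hj : (0 : ℝ) < j := by exact_mod_cast g2
      rw [← ofReal_measureReal (measure_ne_top μ (E j)), hw, ← ENNReal.ofReal_mul (Real.rpow_nonneg hj.le _)]
      apply ENNReal.ofReal_le_ofReal
      calc (j : ℝ) ^ (-γ₁) * μ.real (E j) ≤ (j : ℝ) ^ (-γ₁) * (j : ℝ) ^ (-(ρ - η / 2)) :=
            mul_le_mul_of_nonneg_left g1 (Real.rpow_nonneg hj.le _)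
        _ = _ := by
            rw [← Real.rpow_add hj]
            congr 1
            rw [hη]
            ring
    have h2 : ∑' j, w (j + N) * μ (E (j + N)) ≠ ∞ := by
      have hs' : Summable (fun j : ℕ => ((j + N : ℕ) : ℝ) ^ (-(1 + η / 2))) := (summable_nat_add_iff N).2 hsum
      have h3 : ∑' j : ℕ, ENNReal.ofReal (((j + N : ℕ) : ℝ) ^ (-(1 + η / 2))) ≠ ∞ := by
        rw [← ENNReal.ofReal_tsum_of_nonneg (fun j => Real.rpow_nonneg (Nat.cast_nonneg _) _) hs']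
        exact ENNReal.ofReal_ne_top
      exact ne_top_of_le_ne_top h3 (ENNReal.tsum_le_tsum fun j => h1 (j + N) (by omega))
    have h3 : ∑' j, w j * μ (E j) = ∑ j ∈ Finset.range N, w j * μ (E j) + ∑' j, w (j + N) * μ (E (j + N)) :=
      (ENNReal.summable.sum_add_tsum_nat_add' (f := fun j => w j * μ (E j)) (k := N)).symm
    rw [h3]
    refine ENNReal.add_ne_top.2 ⟨?_, h2⟩
    rw [ENNReal.sum_ne_top]
    intro j _
    exact ENNReal.mul_ne_top ENNReal.ofReal_ne_top (measure_ne_top _ _)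
  have hint : ∫⁻ ω, ∑' j, w j * (E j).indicator 1 ω ∂μ ≠ ∞ := by
    rw [lintegral_tsum (fun j => ((measurable_one.indicator (hEm j)).const_mul _).aemeasurable)]
    have : ∀ j, ∫⁻ ω, w j * (E j).indicator 1 ω ∂μ = w j * μ (E j) := by
      intro j
      rw [lintegral_const_mul _ (measurable_one.indicator (hEm j)), lintegral_indicator_one (hEm j)]
    simp_rw [this]
    exact hfin
  have hae : ∀ᵐ ω ∂μ, ∑' j, w j * (E j).indicator 1 ω < ∞ :=
    ae_lt_top (Measurable.tsum fun j => (measurable_one.indicator (hEm j)).const_mul _) hint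
  have h01 : ∀ᵐ ω ∂μ, ∀ n, 0 ≤ dens μ ℱ A n ω ∧ dens μ ℱ A n ω ≤ 1 := ae_all_iff.2 fun n => dens01 hA n
  filter_upwards [hae, hd, h01] with ω hω hdω h01ω
  obtain ⟨N, hN⟩ := dens_two hdω hδ0
  obtain ⟨J₁, hJ₁⟩ := eventually_atTop.1 ((tendsto_T hs.big).eventually_ge_atTop N)
  set C : ℝ := (∑' j, w j * (E j).indicator 1 ω).toReal with hC
  have hC0 : 0 ≤ C := ENNReal.toReal_nonneg
  have hmain : ∀ J : ℕ, 0 < J → (dev A T h s β J ω : ℝ) ≤ J₁ + 1 + C * (J : ℝ) ^ γ₁ := by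
    intro J hJ
    have hJp : (0 : ℝ) < J := by exact_mod_cast hJ
    set F : Finset ℕ := (Finset.Icc (max J₁ 1) J).filter (fun j => cnt A (T j) (h j) ω ∈ lev s β j) with hF
    have e1 : dev A T h s β J ω ≤ (J₁ + 1) + F.card := by
      unfold dev
      have : (Finset.range (J + 1)).filter (fun j => cnt A (T j) (h j) ω ∈ lev s β j) ⊆ Finset.range (J₁ + 1) ∪ F := by
        intro j hj
        obtain ⟨g1, g2⟩ := Finset.mem_filter.1 hj
        rw [Finset.mem_union, Finset.mem_range, hF, Finset.mem_filter, Finset.mem_Icc]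
        have := Finset.mem_range.1 g1
        by_cases hjj : j < J₁ + 1
        · exact Or.inl hjj
        · exact Or.inr ⟨⟨by omega, by omega⟩, g2⟩
      refine (Finset.card_le_card this).trans ((Finset.card_union_le _ _).trans ?_)
      rw [Finset.card_range]
    have hFE : ∀ j ∈ F, ω ∈ E j := by
      intro j hj
      obtain ⟨g1, g2⟩ := Finset.mem_filter.1 hj
      have g3 := Finset.mem_Icc.1 g1
      refine ⟨g2, ?_⟩
      rintro ⟨m, hm1, hm2, hm3⟩
      apply hm3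
      have hN' := hN N le_rfl
      have := hJ₁ j (by omega)
      exact ⟨hN'.2 m (this.trans hm1), le_min (h01ω m).2 (hN'.1 m (this.trans hm1))⟩
    have e2 : ∑ j ∈ F, w j ≤ ∑' j, w j * (E j).indicator 1 ω := by
      refine le_trans (le_of_eq (Finset.sum_congr rfl fun j hj => ?_)) (ENNReal.sum_le_tsum F)
      rw [indicator_of_mem (hFE j hj)]
      simp
    have e3 : (F.card : ℝ) * (J : ℝ) ^ (-γ₁) ≤ C := by
      have h1 : ENNReal.ofReal ((F.card : ℝ) * (J : ℝ) ^ (-γ₁)) ≤ ∑' j, w j * (E j).indicator 1 ω := by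
        refine le_trans ?_ e2
        have h2 : ∀ j ∈ F, ENNReal.ofReal ((J : ℝ) ^ (-γ₁)) ≤ w j := by
          intro j hj
          have g3 := Finset.mem_Icc.1 (Finset.mem_filter.1 hj).1
          apply ENNReal.ofReal_le_ofReal
          have hj1 : (0 : ℝ) < j := by exact_mod_cast (by omega : 0 < j)
          have hjJ : (j : ℝ) ≤ J := by exact_mod_cast g3.2
          exact Real.rpow_le_rpow_of_nonpos hj1 hjJ (by linarith)
        calc ENNReal.ofReal ((F.card : ℝ) * (J : ℝ) ^ (-γ₁)) = ∑ j ∈ F, ENNReal.ofReal ((J : ℝ) ^ (-γ₁)) := by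
              rw [Finset.sum_const, nsmul_eq_mul, ENNReal.ofReal_mul (Nat.cast_nonneg _), ENNReal.ofReal_natCast]
          _ ≤ _ := Finset.sum_le_sum h2
      rw [hC]
      exact (ENNReal.ofReal_le_iff_le_toReal hω.ne).1 h1
    have e4 : (F.card : ℝ) ≤ C * (J : ℝ) ^ γ₁ := by
      have h1 := mul_le_mul_of_nonneg_right e3 (Real.rpow_nonneg hJp.le γ₁)
      rw [mul_assoc, ← Real.rpow_add hJp, neg_add_cancel, Real.rpow_zero, mul_one] at h1
      exact h1
    have e5 : (dev A T h s β J ω : ℝ) ≤ (J₁ + 1) + F.card := by exact_mod_cast e1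
    linarith
  filter_upwards [ev_pow (a := γ₁) (b := γ) hγ₁b (C + J₁ + 1), ev_log 0, eventually_gt_atTop 0] with J g1 g2 g3
  have hJ : (1 : ℝ) ≤ J := by exact_mod_cast g3
  have h1 := hmain J g3
  have h2 : 1 ≤ (J : ℝ) ^ γ₁ := Real.one_le_rpow hJ hγ₁0.le
  have h3 : (C + J₁ + 1) * 1 * (J : ℝ) ^ γ₁ ≤ (C + J₁ + 1) * (Real.log J + 1) * (J : ℝ) ^ γ₁ := by
    apply mul_le_mul_of_nonneg_right _ (by linarith)
    apply mul_le_mul_of_nonneg_left (by linarith) (by positivity)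
  have h4 : ((J₁ : ℝ) + 1) * 1 ≤ (J₁ + 1) * (J : ℝ) ^ γ₁ := mul_le_mul_of_nonneg_left h2 (by positivity)
  linarith

lemma rate_nonneg {s : ℝ} (hs : 0 < s) : 0 ≤ s * Real.log s - s + 1 := by
  have h1 := Real.one_sub_inv_le_log_of_pos hs
  have h2 := mul_le_mul_of_nonneg_left h1 hs.le
  have h3 : s * (1 - s⁻¹) = s - 1 := by
    field_simp
  rw [h3] at h2
  linarith

/-- the spectrum: the exact exponent of the number of windows at the level `s` -/
theorem dev_law (hA : ∀ n, MeasurableSet[ℱ n] (A n)) {W : ℕ} (hW : 0 < W)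
    (hd : ∀ᵐ ω ∂μ, ∀ ε : ℝ, 0 < ε → ∀ᶠ n : ℕ in atTop, |dens μ ℱ A n ω - rhoW W (n + 1)| ≤ ε * rhoW W (n + 1))
    {T h : ℕ → ℕ} {β s ρ : ℝ} (hs : Spar T h β) (hβ : 0 < β) (hs0 : 0 < s) (hρ : ρ = β * (s * Real.log s - s + 1))
    (hρ1 : ρ < 1) :
    ∀ᵐ ω ∂μ, ∀ ε : ℝ, 0 < ε → ∀ᶠ N : ℕ in atTop,
      (N : ℝ) ^ (1 - ρ - ε) ≤ dev A T h s β N ω ∧ (dev A T h s β N ω : ℝ) ≤ (N : ℝ) ^ (1 - ρ + ε) := by
  classical
  have hρ0 : 0 ≤ ρ := by
    rw [hρ]
    exact mul_nonneg hβ.le (rate_nonneg hs0)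
  have hc : 0 < s * β := mul_pos hs0 hβ
  have hrate : β - s * β * (1 + Real.log (β / (s * β))) = ρ := by
    have h1 : β / (s * β) = s⁻¹ := by
      field_simp
    rw [h1, Real.log_inv, hρ]
    ring
  have hup : ∀ᵐ ω ∂μ, ∀ m : ℕ, ∀ᶠ J : ℕ in atTop,
      (dev A T h s β J ω : ℝ) ≤ (J : ℝ) ^ (1 - ρ + 1 / ((m : ℝ) + 1)) := by
    rw [ae_all_iff]
    intro m
    have hm : 0 < 1 / ((m : ℝ) + 1) := by positivity
    exact dev_upper (μ := μ) (ℱ := ℱ) hA hW hd hs hβ hs0 hρ (by linarith) (by linarith)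
  -- the prescribed counts
  obtain ⟨K, hK, hKlev⟩ : ∃ K : ℕ → ℕ, Tendsto (fun j : ℕ => (K j : ℝ) / Real.log j) atTop (𝓝 (s * β)) ∧
      ∀ j : ℕ, K j ∈ lev s β j := by
    rcases le_or_gt s 1 with hs1 | hs1
    · refine ⟨fun j => ⌊s * β * Real.log j⌋₊, (tendsto_nat_floor_mul_div_atTop hc.le).comp tendsto_log, ?_⟩
      intro j
      have hl : 0 ≤ Real.log (j : ℝ) := Real.log_natCast_nonneg j
      show s ^ (s * β * Real.log j) ≤ s ^ ⌊s * β * Real.log j⌋₊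
      rw [← Real.rpow_natCast]
      exact Real.rpow_le_rpow_of_exponent_ge hs0 hs1 (Nat.floor_le (by positivity))
    · refine ⟨fun j => ⌈s * β * Real.log j⌉₊, (tendsto_nat_ceil_mul_div_atTop hc.le).comp tendsto_log, ?_⟩
      intro j
      show s ^ (s * β * Real.log j) ≤ s ^ ⌈s * β * Real.log j⌉₊
      rw [← Real.rpow_natCast]
      exact Real.rpow_le_rpow_of_exponent_le hs1.le (Nat.le_ceil _)
  have hpos : ∀ m : ℕ, 0 < (1 - ρ) / ((m : ℝ) + 2) := fun m => by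
    apply div_pos (by linarith)
    positivity
  have hlt : ∀ m : ℕ, (1 - ρ) / ((m : ℝ) + 2) < 1 - ρ := fun m => by
    rw [div_lt_iff₀ (by positivity)]
    have : (0 : ℝ) ≤ m := Nat.cast_nonneg m
    nlinarith
  have hlow : ∀ᵐ ω ∂μ, ∀ m : ℕ, ∀ᶠ J : ℕ in atTop, ∃ j, J ≤ j ∧
      j < J + ⌈(J : ℝ) ^ (ρ + (1 - ρ) / ((m : ℝ) + 2))⌉₊ ∧ cnt A (T j) (h j) ω = K j := by
    rw [ae_all_iff]
    intro m
    have h1 := hpos m
    have h2 := hlt m
    exact dense_level (μ := μ) (ℱ := ℱ) hA hW hd hs hβ hc K hK (by rw [hrate]; exact hρ0)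
      (by rw [hrate]; linarith) (by linarith)
  filter_upwards [hup, hlow] with ω hω1 hω2 ε hε
  obtain ⟨m, hm⟩ := exists_nat_gt (2 / ε)
  have hm0 : (0 : ℝ) < (m : ℝ) + 1 := by positivity
  have hm1 : 1 / ((m : ℝ) + 1) ≤ ε / 2 := by
    rw [div_lt_iff₀ hε] at hm
    rw [div_le_iff₀ hm0]
    nlinarith
  have hm2 : (1 - ρ) / ((m : ℝ) + 2) ≤ ε / 2 := by
    refine le_trans ?_ hm1
    rw [div_le_div_iff₀ (by positivity) hm0]
    nlinarith
  have h0 := hpos m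
  have h2 := hlt m
  have hdn : ∀ᶠ J : ℕ in atTop, ∃ j, J ≤ j ∧ j < J + ⌈(J : ℝ) ^ (ρ + (1 - ρ) / ((m : ℝ) + 2))⌉₊ ∧
      cnt A (T j) (h j) ω ∈ lev s β j := by
    filter_upwards [hω2 m] with J hJ
    obtain ⟨j, g1, g2, g3⟩ := hJ
    exact ⟨j, g1, g2, by rw [g3]; exact hKlev j⟩
  have h3 := dense_count (γ := ρ + (1 - ρ) / ((m : ℝ) + 2)) (ε := ε / 2) (by linarith) (by linarith)
    (by linarith) hdn
  filter_upwards [hω1 m, h3, eventually_ge_atTop 1] with N g1 g2 g3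
  have hN : (1 : ℝ) ≤ N := by exact_mod_cast g3
  constructor
  · refine le_trans ?_ g2
    apply Real.rpow_le_rpow_of_exponent_le hN
    linarith
  · refine g1.trans ?_
    apply Real.rpow_le_rpow_of_exponent_le hN
    linarith

end Pool.Agent.H636.FW
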